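import Pool.Agent.Helper96.SE.St
import Pool.Agent.Helper24.WS.M_W3

/-!
# Project SE, module E2
-/

set_option autoImplicit false

namespace Pool.Agent.Helper79.SE

open Polynomial
open Pool.Agent.Helper96.SE
open Pool.Agent.Helper24.WS (res_size)
open scoped Classical

noncomputable section

/-- the polynomial with the coefficients `a` -/
private def pol {F : Type} [Field F] {d : ℕ} (a : Fin d → F) : F[X] := ∑ i, C (a i) * X ^ (i : ℕ)

private lemma pol_coeff {F : Type} [Field F] {d : ℕ} (a : Fin d → F) (i : Fin d) :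
    (pol a).coeff i = a i := by
  unfold pol
  rw [finsetSum_coeff]
  simp only [coeff_C_mul, coeff_X_pow]
  rw [Finset.sum_eq_single i]
  · simp
  · intro j _ hj
    rw [if_neg (fun h => hj (Fin.ext h.symm)), mul_zero]
  · simp

private lemma pol_deg {F : Type} [Field F] {d : ℕ} (a : Fin d → F) : (pol a).degree < d := by
  unfold pol
  refine (degree_sum_le _ _).trans_lt ?_
  refine (Finset.sup_lt_iff (WithBot.bot_lt_coe d)).2 fun i _ => ?_
  exact (degree_C_mul_X_pow_le _ _).trans_lt ((Nat.cast_lt (α := WithBot ℕ)).2 i.2)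

private lemma pol_of {F : Type} [Field F] {d : ℕ} (g : F[X]) (hg : g.degree < d) :
    pol (fun i : Fin d => g.coeff i) = g := by
  ext n
  by_cases hn : n < d
  · exact pol_coeff _ ⟨n, hn⟩
  · rw [coeff_eq_zero_of_degree_lt, coeff_eq_zero_of_degree_lt]
    · exact hg.trans_le (by exact_mod_cast not_lt.1 hn)
    · exact (pol_deg _).trans_le (by exact_mod_cast not_lt.1 hn)

private lemma pol_inj {F : Type} [Field F] {d : ℕ} {a b : Fin d → F} (h : pol a = pol b) : a = b := by
  funext i
  rw [← pol_coeff a i, ← pol_coeff b i, h]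

theorem hE2 : StE1 → StE2 := by
  intro hE1 F _ _ ψ f p hp hψ hψn hf hNP
  obtain ⟨u, hu0, hu1⟩ := hE1 F ψ f p hp hψ hψn hf hNP
  set d := f.natDegree with hdd
  set R : F[X] → F := fun g => resultant f g d g.natDegree with hR
  have hsize : ∀ (g : F[X]) (n : ℕ), g.natDegree ≤ n → resultant f g d n = R g :=
    fun g n hn => res_size hf hn
  have hmul : ∀ g h : F[X], R (g * h) = R g * R h := by
    intro g h
    rw [← hsize (g * h) (g.natDegree + h.natDegree) natDegree_mul_le, hdd,
      resultant_mul_right f g h _ le_rfl]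
  have hmod : ∀ g : F[X], R (g %ₘ f) = R g := by
    intro g
    set n := g.natDegree + (g %ₘ f).natDegree + ((g /ₘ f).natDegree + f.natDegree) with hn
    rw [← hsize (g %ₘ f) n (by omega), ← hsize g n (by omega)]
    conv_rhs => rw [← modByMonic_add_div g f]
    rw [resultant_add_mul_right f (g %ₘ f) (g /ₘ f) d n (by omega) le_rfl]
  have hcop : IsCoprime f u := by
    by_contra h
    exact hu0 (resultant_eq_zero_iff.2 ⟨Or.inl hf.ne_zero, h⟩)
  -- the bijection
  have hmd : ∀ g : F[X], (g %ₘ f).degree < d := by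
    intro g
    have h := degree_modByMonic_lt g hf
    rwa [degree_eq_natDegree hf.ne_zero] at h
  set M : (Fin d → F) → (Fin d → F) := fun a i => ((u * pol a) %ₘ f).coeff i with hM
  have hpM : ∀ a, pol (M a) = (u * pol a) %ₘ f := fun a => pol_of _ (hmd _)
  have hMinj : Function.Injective M := by
    intro a b hab
    have h1 : (u * pol a) %ₘ f = (u * pol b) %ₘ f := by rw [← hpM, ← hpM, hab]
    have h2 : f ∣ u * (pol a - pol b) := by
      have h3 : (u * (pol a - pol b)) %ₘ f = 0 := by
        rw [mul_sub, sub_modByMonic, h1, sub_self]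
      exact (modByMonic_eq_zero_iff_dvd hf).1 h3
    have h4 : f ∣ pol a - pol b := hcop.dvd_of_dvd_mul_left h2
    have h5 : pol a - pol b = 0 := by
      by_contra hne
      have h6 := degree_le_of_dvd h4 hne
      rw [degree_eq_natDegree hf.ne_zero, ← hdd] at h6
      have h7 : (pol a - pol b).degree < d :=
        (degree_sub_le _ _).trans_lt (max_lt (pol_deg a) (pol_deg b))
      exact absurd h6 (not_le.2 h7)
    exact pol_inj (sub_eq_zero.1 h5)
  have hMbij : Function.Bijective M := Finite.injective_iff_bijective.1 hMinj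
  have hterm : ∀ a : Fin d → F, ψ (resultant f (∑ i, C (a i) * X ^ (i : ℕ)) d d) = ψ (R (pol a)) := by
    intro a
    rw [← hsize (pol a) d (natDegree_le_iff_degree_le.2 (pol_deg a).le)]
    rfl
  show ∑ a : Fin d → F, ψ (resultant f (∑ i, C (a i) * X ^ (i : ℕ)) d d) = 0
  rw [Finset.sum_congr rfl fun a _ => hterm a]
  have h1 : ∑ a : Fin d → F, ψ (R (pol a)) = ψ (R u) * ∑ a : Fin d → F, ψ (R (pol a)) := by
    rw [Finset.mul_sum, ← Function.Bijective.sum_comp hMbij (fun a => ψ (R (pol a)))]
    refine Finset.sum_congr rfl fun a _ => ?_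
    rw [hpM, hmod, hmul, map_mul]
  have h2 : (1 - ψ (R u)) * ∑ a : Fin d → F, ψ (R (pol a)) = 0 := by
    linear_combination h1
  rcases mul_eq_zero.1 h2 with h | h
  · exact absurd (sub_eq_zero.1 h).symm hu1
  · exact h

end

end Pool.Agent.Helper79.SE
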